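import Mathlib

/-! Definitions for harmonic functions and energy measures on the Sierpinski carpet. -/

namespace Pool.Agent.H985Z.SC

open MeasureTheory Filter Topology Set

/-- The similitude `x ↦ (x + a) / 3` of the plane, `a ∈ {0,1,2}²`. -/
noncomputable def psi (a : Fin 3 × Fin 3) (p : ℝ × ℝ) : ℝ × ℝ :=
  ((p.1 + ((a.1 : ℕ) : ℝ)) / 3, (p.2 + ((a.2 : ℕ) : ℝ)) / 3)

/-- `K` is the standard Sierpinski carpet: the nonempty compact set with
`K = ⋃ ψ_a (K)`, the union over the eight digits `a ≠ (1,1)`. -/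
def IsCarpet (K : Set (ℝ × ℝ)) : Prop :=
  IsCompact K ∧ K.Nonempty ∧ K = ⋃ a ∈ {a : Fin 3 × Fin 3 | a ≠ (1, 1)}, psi a '' K

/-- The boundary of the unit square. -/
def V0 : Set (ℝ × ℝ) := frontier (Icc (0 : ℝ) 1 ×ˢ Icc (0 : ℝ) 1)

/-- A conservative, local, regular symmetric Dirichlet form on `L²(X, μ)` all of whose finite
energy functions have continuous versions; `F` is the space of these continuous versions. -/
structure DForm (X : Type) [TopologicalSpace X] [MeasurableSpace X] (μ : Measure X) where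
  /-- the domain -/
  F : Submodule ℝ C(X, ℝ)
  /-- the bilinear form -/
  E : F →ₗ[ℝ] F →ₗ[ℝ] ℝ
  symm : ∀ f g : F, E f g = E g f
  nonneg : ∀ f : F, 0 ≤ E f f
  /-- closed: complete for `E₁ (f) = E (f, f) + ∫ f² dμ` -/
  closed : ∀ u : ℕ → F,
    (∀ ε : ℝ, 0 < ε → ∃ N : ℕ, ∀ m ≥ N, ∀ n ≥ N,
      E (u m - u n) (u m - u n) + ∫ x, ((u m - u n : F) : C(X, ℝ)) x ^ 2 ∂μ < ε) →
    ∃ f : F, Tendsto (fun n => E (u n - f) (u n - f) + ∫ x, ((u n - f : F) : C(X, ℝ)) x ^ 2 ∂μ)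
      atTop (𝓝 0)
  /-- Markovian: the unit contraction operates -/
  markov : ∀ f : F, ∃ h : ((f : C(X, ℝ)) ⊔ 0) ⊓ 1 ∈ F, E ⟨_, h⟩ ⟨_, h⟩ ≤ E f f
  /-- regular: `F` is uniformly dense in the continuous functions -/
  dense : Dense (F : Set C(X, ℝ))
  /-- local -/
  loc : ∀ f g : F, Disjoint (tsupport (f : C(X, ℝ))) (tsupport (g : C(X, ℝ))) → E f g = 0
  /-- conservative (no killing): `1 ∈ F` and `E (1, 1) = 0` -/
  one_mem : (1 : C(X, ℝ)) ∈ F
  E_one : E ⟨1, one_mem⟩ ⟨1, one_mem⟩ = 0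

variable {X : Type} [TopologicalSpace X] [MeasurableSpace X] {μ : Measure X}

/-- `h` is harmonic off `V`: `E (h, g) = 0` for every `g ∈ F` vanishing on `V`. -/
def DForm.IsHarmonic (D : DForm X μ) (V : Set X) (h : D.F) : Prop :=
  ∀ g : D.F, (∀ x ∈ V, (g : C(X, ℝ)) x = 0) → D.E h g = 0

/-- `ν` is the energy measure `Γ (f, f)`: a finite Borel measure with
`∫ g dν = 2 E (f, f g) - E (f², g)` for all `g ∈ F` (the products being in `F`). -/
def DForm.IsEnergyMeasure (D : DForm X μ) (f : D.F) (ν : Measure X) : Prop :=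
  IsFiniteMeasure ν ∧ ∀ g : D.F,
    ∃ (h₁ : (f : C(X, ℝ)) * (g : C(X, ℝ)) ∈ D.F) (h₂ : (f : C(X, ℝ)) * (f : C(X, ℝ)) ∈ D.F),
      ∫ x, (g : C(X, ℝ)) x ∂ν = 2 * D.E f ⟨_, h₁⟩ - D.E ⟨_, h₂⟩ g

end Pool.Agent.H985Z.SC
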