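import Pool.Agent.H985Z.SC.Defs

/-! Intermediate structures and the statements of the parts of the proof. -/

namespace Pool.Agent.H985Z.SC

open MeasureTheory Filter Topology Set
open scoped RealInnerProductSpace

/-- A resistance form presented as a Hilbert space `H` of continuous functions with inner product
`⟪f, g⟫ = E (f, g) + f o * g o`. -/
structure RF (X : Type) [MetricSpace X] [CompactSpace X] (H : Type) [NormedAddCommGroup H]
    [InnerProductSpace ℝ H] where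
  ι : H →L[ℝ] C(X, ℝ)
  inj : Function.Injective ι
  o : X
  one : H
  ι_one : ι one = 1
  inner_one : ∀ f : H, ⟪one, f⟫ = ι f o
  markov : ∀ f : H, ∃ g : H, ι g = (ι f ⊔ 0) ⊓ 1 ∧
    ⟪g, g⟫ - ι g o * ι g o ≤ ⟪f, f⟫ - ι f o * ι f o
  dense : DenseRange ι
  loc : ∀ f g : H, Disjoint (tsupport (ι f)) (tsupport (ι g)) → ⟪f, g⟫ - ι f o * ι g o = 0

/-- The energy form. -/
noncomputable def RF.E {X : Type} [MetricSpace X] [CompactSpace X] {H : Type}
    [NormedAddCommGroup H] [InnerProductSpace ℝ H] (R : RF X H) (f g : H) : ℝ :=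
  ⟪f, g⟫ - R.ι f R.o * R.ι g R.o

/-- Reduction of a Dirichlet form on a compact connected space to a resistance form. -/
def S_RED : Prop :=
  ∀ (X : Type) [MetricSpace X] [CompactSpace X] [ConnectedSpace X] [MeasurableSpace X]
    [BorelSpace X] (μ : Measure X) [IsFiniteMeasure μ] [μ.IsOpenPosMeasure] (D : DForm X μ)
    (o : X),
    ∃ (H : Type) (_ : NormedAddCommGroup H) (_ : InnerProductSpace ℝ H) (_ : CompleteSpace H)
      (R : RF X H) (e : H ≃ₗ[ℝ] D.F),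
      R.o = o ∧ (∀ f, R.ι f = (e f : C(X, ℝ))) ∧ ∀ f g, R.E f g = D.E (e f) (e g)

/-- Approximation by finite networks (traces on finite sets). -/
def Disc {X : Type} [MetricSpace X] [CompactSpace X] {H : Type}
    [NormedAddCommGroup H] [InnerProductSpace ℝ H] (R : RF X H) : Prop :=
  ∃ (P : Finset X → (X → ℝ) →ₗ[ℝ] H) (c : Finset X → X → X → ℝ),
    (∀ V x y, 0 ≤ c V x y) ∧
    (∀ V, R.o ∈ V → ∀ φ : X → ℝ, ∀ x ∈ V, R.ι (P V φ) x = φ x) ∧
    (∀ V, R.o ∈ V → ∀ φ χ : X → ℝ, R.E (P V φ) (P V χ) =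
      ∑ x ∈ V, ∑ y ∈ V, c V x y * ((φ x - φ y) * (χ x - χ y))) ∧
    ∀ f : H, Tendsto (fun V => P V (R.ι f)) atTop (𝓝 f)

def S_DISC : Prop :=
  ∀ (X : Type) [MetricSpace X] [CompactSpace X] (H : Type) [NormedAddCommGroup H]
    [InnerProductSpace ℝ H] [CompleteSpace H] (R : RF X H), Disc R

/-- The domain is an algebra. -/
def S_MUL : Prop :=
  ∀ (X : Type) [MetricSpace X] [CompactSpace X] (H : Type) [NormedAddCommGroup H]
    [InnerProductSpace ℝ H] [CompleteSpace H] (R : RF X H) (f g : H),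
    ∃ p : H, R.ι p = R.ι f * R.ι g

/-- Existence of the energy measure. -/
def S_EM : Prop :=
  ∀ (X : Type) [MetricSpace X] [CompactSpace X] [MeasurableSpace X] [BorelSpace X]
    (H : Type) [NormedAddCommGroup H] [InnerProductSpace ℝ H] [CompleteSpace H] (R : RF X H)
    (h : H), ∃ ν : Measure X, IsFiniteMeasure ν ∧ ∀ g p q : H, R.ι p = R.ι h * R.ι g →
      R.ι q = R.ι h * R.ι h → ∫ x, R.ι g x ∂ν = 2 * R.E h p - R.E q g

/-- Annulus data: an angle `d` and two nonnegative functions, `g` vanishing on the inner and `h`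
on the outer boundary, such that angle and ratio `g : h` determine the point. -/
structure Ann (X : Type) [TopologicalSpace X] where
  d : X → Real.Angle
  g : X → ℝ
  h : X → ℝ
  cd : Continuous d
  cg : Continuous g
  ch : Continuous h
  g0 : ∀ p, 0 ≤ g p
  h0 : ∀ p, 0 ≤ h p
  sep : ∀ p q, d p = d q → g p * h q = g q * h p → p = q

/-- A path in `S` from `x` to `y` along which the angle has a real lift from `a` to `b`. -/
def Lk {X : Type} [TopologicalSpace X] (d : X → Real.Angle) (S : Set X) (x : X) (a : ℝ) (y : X)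
    (b : ℝ) : Prop :=
  ∃ (γ : Path x y) (θ : C(unitInterval, ℝ)), (∀ s, γ s ∈ S) ∧
    (∀ s, ((θ s : ℝ) : Real.Angle) = d (γ s)) ∧ θ 0 = a ∧ θ 1 = b

/-- Disjoint crossings of the annulus keep their order in the universal cover; and every path
has lifts. -/
def S_T : Prop :=
  ∀ (X : Type) [TopologicalSpace X] (A : Ann X),
    (∀ (S S' : Set X) (x x' y y' : X) (a a' b b' : ℝ), Disjoint S S' →
      A.g x = 0 → A.g x' = 0 → A.h y = 0 → A.h y' = 0 →
      Lk A.d S x a y b → Lk A.d S' x' a' y' b' → a < a' → b < b') ∧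
    (∀ (S : Set X) (x y : X) (a b : ℝ), JoinedIn S x y → (a : Real.Angle) = A.d x →
      (b : Real.Angle) = A.d y → ∃ n : ℤ, Lk A.d S x (a + 2 * Real.pi * n) y b) ∧
    (∀ (S : Set X) (x y : X) (a b : ℝ) (n : ℤ), Lk A.d S x a y b →
      Lk A.d S x (a + 2 * Real.pi * n) y (b + 2 * Real.pi * n))

/-- Three inner points `x` and three outer points `y` in the same cyclic order. -/
structure Tri {X : Type} [TopologicalSpace X] (A : Ann X) (x y : Fin 3 → X) where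
  a : Fin 3 → ℝ
  b : Fin 3 → ℝ
  hx : ∀ i, A.g (x i) = 0
  hy : ∀ j, A.h (y j) = 0
  ha : ∀ i, (a i : Real.Angle) = A.d (x i)
  hb : ∀ j, (b j : Real.Angle) = A.d (y j)
  a01 : a 0 < a 1
  a12 : a 1 < a 2
  a20 : a 2 < a 0 + 2 * Real.pi
  b01 : b 0 < b 1
  b12 : b 1 < b 2
  b20 : b 2 < b 0 + 2 * Real.pi

/-- The nodal property forces a nonnegative determinant. -/
def S_N : Prop :=
  ∀ (X : Type) [TopologicalSpace X] (A : Ann X) (x y : Fin 3 → X) (_ : Tri A x y)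
    (u : Fin 3 → C(X, ℝ)), (∀ i j, 0 ≤ u i (y j)) →
    (∀ (α : Fin 3 → ℝ) (j : Fin 3), 0 < ∑ i, α i * u i (y j) →
      ∃ i, 0 < α i ∧ JoinedIn {p | 0 < ∑ i, α i * u i p} (x i) (y j)) →
    0 ≤ Matrix.det (Matrix.of fun i j => u i (y j))

/-- The cell map of a word. -/
noncomputable def Psi : List (Fin 3 × Fin 3) → ℝ × ℝ → ℝ × ℝ
  | [], p => p
  | a :: w, p => psi a (Psi w p)

/-- Admissible words: no digit `(1,1)`. -/
def Adm (w : List (Fin 3 × Fin 3)) : Prop := ∀ a ∈ w, a ≠ (1, 1)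

/-- The corners of the unit square, counterclockwise from the origin. -/
noncomputable def cor : Fin 4 → ℝ × ℝ := ![(0, 0), (1, 0), (1, 1), (0, 1)]

/-- Basic geometry of the carpet. -/
def G0 (K : Set (ℝ × ℝ)) : Prop :=
  K ⊆ Icc (0 : ℝ) 1 ×ˢ Icc (0 : ℝ) 1 ∧
  (∀ p : ℝ × ℝ, p ∈ V0 ↔ p ∈ Icc (0 : ℝ) 1 ×ˢ Icc (0 : ℝ) 1 ∧
    (p.1 = 0 ∨ p.1 = 1 ∨ p.2 = 0 ∨ p.2 = 1)) ∧
  V0 ⊆ K ∧
  (∀ w, Adm w → ∀ p ∈ K, Psi w p ∈ K) ∧
  (∀ (i : Fin 4) (t : ℝ), t ∈ Icc (0 : ℝ) 1 → (((i : ℕ) : ℝ) / 3, t) ∈ K ∧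
    (t, ((i : ℕ) : ℝ) / 3) ∈ K) ∧
  (∀ w, Adm w → ∀ p ∈ Ioo (1 / 3 : ℝ) (2 / 3) ×ˢ Ioo (1 / 3 : ℝ) (2 / 3), Psi w p ∉ K) ∧
  (∀ p ∈ K, ∀ n : ℕ, ∃ w, Adm w ∧ w.length = n ∧ p ∈ Psi w '' K) ∧
  (∀ w, ∃ c : ℝ × ℝ, ∀ p : ℝ × ℝ,
    Psi w p = (c.1 + p.1 / 3 ^ w.length, c.2 + p.2 / 3 ^ w.length))

def S_G0 : Prop := ∀ K, IsCarpet K → G0 K

/-- The carpet is path connected and locally path connected. -/
def S_G1 : Prop := ∀ K, IsCarpet K → G0 K → IsPathConnected K ∧ LocallyPathConnectedSpace K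

/-- Four disjoint routes from the corners of a hole to the corners of the unit square. -/
def Routes (K : Set (ℝ × ℝ)) : Prop :=
  ∀ w, Adm w → ∃ C : Fin 4 → Set (ℝ × ℝ), (∀ i, IsCompact (C i)) ∧ (∀ i, IsPreconnected (C i)) ∧
    (∀ i, C i ⊆ K) ∧ (∀ i j, i ≠ j → Disjoint (C i) (C j)) ∧
    (∀ i, Psi w (psi (1, 1) (cor i)) ∈ C i) ∧ ∀ i, cor i ∈ C i

def S_G2 : Prop := ∀ K, IsCarpet K → G0 K → Routes K

/-- A configuration: three inner points with annulus data and three disjoint routes. -/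
structure Cfg {X : Type} [TopologicalSpace X] (o : X) (y : Fin 3 → X) where
  x : Fin 3 → X
  A : Ann X
  T : Tri A x y
  C : Fin 3 → Set X
  closed : ∀ i, IsClosed (C i)
  conn : ∀ i, IsPreconnected (C i)
  disj : ∀ i j, i ≠ j → Disjoint (C i) (C j)
  hx : ∀ i, x i ∈ C i
  hy : ∀ i, y i ∈ C i
  ho : ∀ i, o ∉ C i

/-- Countably many configurations, one inside each open set. -/
def Geo (K : Set (ℝ × ℝ)) : Prop :=
  ∃ (o : K) (y : Fin 3 → K) (W : Type) (_ : Countable W) (c : W → Cfg o y),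
    o.1 ∈ V0 ∧ (∀ j, (y j).1 ∈ V0) ∧ ∀ U : Set K, IsOpen U → U.Nonempty →
      ∃ (w : W) (B : Set K), IsPreconnected B ∧ B ⊆ U ∧ (∀ p ∈ B, p.1 ∉ V0) ∧
        (c w).x 0 ∈ B ∧ (c w).x 1 ∈ B

def S_G3 : Prop := ∀ K, IsCarpet K → G0 K → Routes K → Geo K

end Pool.Agent.H985Z.SC
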